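import Mathlib

/-!
# Jointly intersective polynomials over function fields: exact densities (MP_045218)

The question asks whether, for every global function field `K` and all nonconstant
`P_1, ..., P_k ∈ O_K[x]`, condition (i) (the `P_i` have a common root modulo every nonzero ideal of
`O_K`) is equivalent to (ii) (every `A ⊆ O_K` of positive upper Banach density contains
`x, x + P_1(n), ..., x + P_k(n)` for some `x, n ∈ O_K`).

The library answers this in the negative for every `K` and every `k ≥ 1`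
(`MP_045218_nt.FailsForEveryFunctionField`): with `s = t (t - 1)`, `L(x) = (s x)^q - s x` and
`P(x) = L(x) - (t^q - t)`, which has a root modulo every nonzero ideal, there is an `F_q`-linear
`f : O_K → F_q` with `f (L(n)) = 0` and `f (P(n)) ≠ 0` for all `n`, and `A = ker f` is a
counterexample of positive density.  The proofs of these facts are taken over from there.

Here the obstruction is determined quantitatively.

* For all `c_1, ..., c_k ∈ F_q` there are distinct nonconstant `P_i` satisfying (i), and a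
  homomorphism `φ` of `O_K` onto `F_q`, with `φ(P_i(n)) = c_i` for all `n`: we take
  `P_i(x) = c_i P(x) + L(x^i P(x))`.
* The fibres of `φ` are equidistributed along every Folner sequence.  So, for `T ⊆ F_q` without
  translates of `{0, c_1, ..., c_k}`, the set `φ⁻¹(T)` has density exactly `|T| / q` along every
  Folner sequence and contains no configuration.
* For `P_i = c_i P` with distinct nonzero `c_i`, the critical density is exactly `M / q`, where `M`
  is the largest size of such a set `T`.
* For all polynomials `P_1, ..., P_k`, sets of upper Banach density more than `k / (k + 1)` contain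
  configurations with every `n`; and this is sharp for `k = q - 1`.
* For `k ≥ 2` there are also such families in which every `P_i` has a root in `O_K`.
-/

namespace Pool.Agent.Results.MP_045218_nt.ExactDensities

open Polynomial Filter Topology

/-! ### Definitions -/

/-- A Folner sequence in a (discrete) abelian group: finite nonempty sets `F_N` with
`|(F_N + a) △ F_N| / |F_N| → 0` for every `a`. -/
def IsFolner {G : Type*} [AddCommGroup G] (F : ℕ → Finset G) : Prop :=
  (∀ N, (F N).Nonempty) ∧ ∀ a : G, Tendsto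
    (fun N => ((symmDiff ((fun x => x + a) '' (F N : Set G)) (F N : Set G)).ncard : ℝ) /
      (F N).card) atTop (𝓝 0)

/-- The upper Banach density of `A`: the supremum over all Folner sequences `(F_N)` of
`limsup |A ∩ F_N| / |F_N|`. -/
noncomputable def upperBanachDensity {G : Type*} [AddCommGroup G] (A : Set G) : ℝ :=
  sSup {d : ℝ | ∃ F : ℕ → Finset G, IsFolner F ∧
    d = limsup (fun N => ((A ∩ (F N : Set G)).ncard : ℝ) / (F N).card) atTop}

/-- Condition (i): the `P_i` have a common root modulo every nonzero ideal. -/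
def RootModEveryIdeal {O : Type*} [CommRing O] {k : ℕ} (P : Fin k → O[X]) : Prop :=
  ∀ I : Ideal O, I ≠ ⊥ → ∃ n : O, ∀ i, (P i).eval n ∈ I

/-- Condition (ii): every set of positive upper Banach density contains
`x, x + P_1(n), ..., x + P_k(n)` for some `x, n`. -/
def Recurrent {O : Type*} [CommRing O] {k : ℕ} (P : Fin k → O[X]) : Prop :=
  ∀ A : Set O, 0 < upperBanachDensity A → ∃ x n : O, x ∈ A ∧ ∀ i, x + (P i).eval n ∈ A

/-- `T` contains no translate of `{0, c_1, ..., c_k}`. -/
def Free {E : Type*} [AddCommGroup E] {k : ℕ} (c : Fin k → E) (T : Finset E) : Prop :=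
  ∀ y ∈ T, ∃ i, y + c i ∉ T

/-! ### Folner sequences and densities -/

theorem ratio_le_one {G : Type*} [AddCommGroup G] (A : Set G) (S : Finset G) :
    ((A ∩ (S : Set G)).ncard : ℝ) / S.card ≤ 1 := by
  apply div_le_one_of_le₀ _ (Nat.cast_nonneg _)
  have : (A ∩ (S : Set G)).ncard ≤ (S : Set G).ncard :=
    Set.ncard_le_ncard Set.inter_subset_right (Finset.finite_toSet S)
  rw [Set.ncard_coe_finset] at this
  exact_mod_cast this

/-- A countable vector space over a finite field has a Folner sequence. -/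
theorem exists_folner (F V : Type*) [Field F] [Fintype F] [AddCommGroup V] [Module F V]
    [Countable V] : ∃ S : ℕ → Finset V, IsFolner S := by
  classical
  obtain ⟨e, he⟩ := exists_surjective_nat V
  have hfin : ∀ N : ℕ, Finite (Submodule.span F (e '' (Set.Iic N))) := by
    intro N
    have : Module.Finite F (Submodule.span F (e '' (Set.Iic N))) :=
      Module.Finite.span_of_finite F ((Set.finite_Iic N).image e)
    exact Module.finite_of_finite F
  set W : ℕ → Submodule F V := fun N => Submodule.span F (e '' (Set.Iic N)) with hW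
  have hfinS : ∀ N, (W N : Set V).Finite := fun N => by
    have := hfin N
    exact Set.toFinite _
  set S : ℕ → Finset V := fun N => (hfinS N).toFinset with hS
  have hcoe : ∀ N, (S N : Set V) = (W N : Set V) := fun N => by simp [hS]
  have hne : ∀ N, (S N).Nonempty := fun N => ⟨0, by simp [hS]⟩
  refine ⟨S, hne, fun a => ?_⟩
  obtain ⟨j, rfl⟩ := he a
  apply tendsto_const_nhds.congr'
  filter_upwards [eventually_ge_atTop j] with N hN
  have hmem : e j ∈ W N := Submodule.subset_span ⟨j, hN, rfl⟩
  have himg : (fun x => x + e j) '' (S N : Set V) = (S N : Set V) := by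
    rw [hcoe]
    ext x
    constructor
    · rintro ⟨y, hy, rfl⟩
      exact (W N).add_mem hy hmem
    · intro hx
      exact ⟨x - e j, (W N).sub_mem hx hmem, by simp⟩
  rw [himg, symmDiff_self]
  simp

section Counting

variable {G E : Type*} [AddCommGroup G] [AddCommGroup E]

theorem shift_card_le (S : Finset G) {A B : Set G} {a : G} (h : ∀ x ∈ A, x + a ∈ B) :
    (A ∩ (S : Set G)).ncard ≤ (B ∩ (S : Set G)).ncard +
      (symmDiff ((fun x => x + a) '' (S : Set G)) (S : Set G)).ncard := by
  classical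
  have hinj : Function.Injective (fun x : G => x + a) := add_left_injective a
  rw [← Set.ncard_image_of_injective (A ∩ (S : Set G)) hinj]
  refine (Set.ncard_le_ncard (t := (B ∩ (S : Set G)) ∪
    symmDiff ((fun x => x + a) '' (S : Set G)) (S : Set G)) ?_ ?_).trans (Set.ncard_union_le _ _)
  · rintro _ ⟨x, ⟨hxA, hxS⟩, rfl⟩
    by_cases h1 : x + a ∈ (S : Set G)
    · exact Or.inl ⟨h x hxA, h1⟩
    · refine Or.inr ?_
      rw [Set.mem_symmDiff]
      exact Or.inl ⟨⟨x, hxS, rfl⟩, h1⟩
  · refine Set.Finite.union (S.finite_toSet.subset Set.inter_subset_right) ?_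
    exact ((S.finite_toSet.image _).union S.finite_toSet).subset symmDiff_le_sup

theorem shift_ratio_le {S : Finset G} {A B : Set G} {a : G}
    (h : ∀ x ∈ A, x + a ∈ B) :
    ((A ∩ (S : Set G)).ncard : ℝ) / S.card ≤ ((B ∩ (S : Set G)).ncard : ℝ) / S.card +
      ((symmDiff ((fun x => x + a) '' (S : Set G)) (S : Set G)).ncard : ℝ) / S.card := by
  rw [← add_div]
  apply div_le_div_of_nonneg_right _ (Nat.cast_nonneg _)
  exact_mod_cast shift_card_le S h

theorem ncard_filter (p : G → Prop) [DecidablePred p] (S : Finset G) :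
    ({x : G | p x} ∩ (S : Set G)).ncard = (S.filter p).card := by
  rw [← Set.ncard_coe_finset]
  congr 1
  ext x
  simp [and_comm]

theorem ncard_preimage_eq (f : G → E) (T : Finset E) (S : Finset G) :
    ({x : G | f x ∈ T} ∩ (S : Set G)).ncard =
      ∑ y ∈ T, ({x : G | f x = y} ∩ (S : Set G)).ncard := by
  classical
  rw [ncard_filter]
  simp_rw [ncard_filter]
  rw [Finset.card_eq_sum_card_fiberwise (f := f) (t := T)]
  · refine Finset.sum_congr rfl fun y hy => ?_
    rw [Finset.filter_filter]
    congr 1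
    ext x
    simp only [Finset.mem_filter]
    constructor
    · rintro ⟨hx, -, h⟩
      exact ⟨hx, h⟩
    · rintro ⟨hx, h⟩
      exact ⟨hx, h ▸ hy, h⟩
  · intro x hx
    exact (Finset.mem_filter.1 hx).2

/-- The fibres of a homomorphism onto a finite group are equidistributed along every Folner
sequence. -/
theorem tendsto_density [Fintype E] (φ : G →+ E) (hφ : Function.Surjective φ) (T : Finset E)
    {F : ℕ → Finset G} (hF : IsFolner F) :
    Tendsto (fun N => (({x : G | φ x ∈ T} ∩ (F N : Set G)).ncard : ℝ) / (F N).card) atTop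
      (𝓝 ((T.card : ℝ) / Fintype.card E)) := by
  classical
  set r : E → ℕ → ℝ :=
    fun y N => (({x : G | φ x = y} ∩ (F N : Set G)).ncard : ℝ) / (F N).card with hr
  have hq : (0 : ℝ) < Fintype.card E := by exact_mod_cast Fintype.card_pos
  have hdiff : ∀ y y' : E, Tendsto (fun N => r y N - r y' N) atTop (𝓝 0) := by
    intro y y'
    obtain ⟨a, ha⟩ := hφ (y' - y)
    have hb := (hF.2 a).add (hF.2 (-a))
    rw [add_zero] at hb
    refine squeeze_zero_norm (fun N => ?_) hb
    have h1 := shift_ratio_le (S := F N) (A := {x : G | φ x = y}) (B := {x : G | φ x = y'})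
      (a := a) (fun x hx => by
        show φ (x + a) = y'
        rw [map_add, ha, (hx : φ x = y)]
        abel)
    have h2 := shift_ratio_le (S := F N) (A := {x : G | φ x = y'}) (B := {x : G | φ x = y})
      (a := -a) (fun x hx => by
        show φ (x + -a) = y
        rw [map_add, map_neg, ha, (hx : φ x = y')]
        abel)
    have h3 : (0 : ℝ) ≤ ((symmDiff ((fun x => x + a) '' (F N : Set G)) (F N : Set G)).ncard : ℝ) /
      (F N).card := by positivity
    have h4 : (0 : ℝ) ≤ ((symmDiff ((fun x => x + -a) '' (F N : Set G)) (F N : Set G)).ncard : ℝ) /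
      (F N).card := by positivity
    rw [Real.norm_eq_abs, abs_le]
    simp only [hr]
    constructor <;> linarith
  have hcardpos : ∀ N, (0 : ℝ) < (F N).card := fun N => by exact_mod_cast (hF.1 N).card_pos
  have hsum : ∀ N, ∑ y, r y N = 1 := by
    intro N
    have h1 := ncard_preimage_eq (φ : G → E) (Finset.univ : Finset E) (F N)
    have h2 : ({x : G | φ x ∈ (Finset.univ : Finset E)} ∩ (F N : Set G)) = (F N : Set G) := by
      ext x
      simp
    rw [h2, Set.ncard_coe_finset] at h1
    simp only [hr]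
    rw [← Finset.sum_div, div_eq_one_iff_eq (hcardpos N).ne']
    exact_mod_cast h1.symm
  have hone : ∀ y, Tendsto (r y) atTop (𝓝 (1 / Fintype.card E)) := by
    intro y
    have h := tendsto_finsetSum (Finset.univ : Finset E) (fun y' _ => hdiff y y')
    have h2 : (fun N => ∑ y', (r y N - r y' N)) = fun N => Fintype.card E * r y N - 1 := by
      funext N
      rw [Finset.sum_sub_distrib, hsum]
      simp
    rw [h2, Finset.sum_const_zero] at h
    have h3 := (h.add_const 1).div_const (Fintype.card E : ℝ)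
    rw [zero_add] at h3
    refine h3.congr (fun N => ?_)
    rw [sub_add_cancel, mul_div_cancel_left₀ _ hq.ne']
  have h4 : ∀ N, (({x : G | φ x ∈ T} ∩ (F N : Set G)).ncard : ℝ) / (F N).card =
      ∑ y ∈ T, r y N := by
    intro N
    rw [ncard_preimage_eq]
    push_cast
    rw [Finset.sum_div]
  simp_rw [h4]
  have h5 := tendsto_finsetSum T (fun y _ => hone y)
  rw [Finset.sum_const, nsmul_eq_mul, mul_one_div] at h5
  exact h5

theorem density_eq (hne : ∃ F : ℕ → Finset G, IsFolner F) {A : Set G} {δ : ℝ}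
    (h : ∀ F : ℕ → Finset G, IsFolner F →
      Tendsto (fun N => ((A ∩ (F N : Set G)).ncard : ℝ) / (F N).card) atTop (𝓝 δ)) :
    upperBanachDensity A = δ := by
  have h1 : {d : ℝ | ∃ F : ℕ → Finset G, IsFolner F ∧
      d = limsup (fun N => ((A ∩ (F N : Set G)).ncard : ℝ) / (F N).card) atTop} = {δ} := by
    ext d
    constructor
    · rintro ⟨F, hF, rfl⟩
      exact (h F hF).limsup_eq
    · rintro rfl
      obtain ⟨F, hF⟩ := hne
      exact ⟨F, hF, (h F hF).limsup_eq.symm⟩
  rw [upperBanachDensity, h1, csSup_singleton]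

/-- A set of upper Banach density more than `k / (k + 1)` contains a translate of every
`{0, a_1, ..., a_k}`. -/
theorem exists_translate (hne : ∃ F : ℕ → Finset G, IsFolner F) {k : ℕ} (a : Fin k → G)
    {A : Set G} (hA : (k : ℝ) / (k + 1) < upperBanachDensity A) :
    ∃ x ∈ A, ∀ i, x + a i ∈ A := by
  classical
  by_contra hcon
  push Not at hcon
  obtain ⟨F₀, hF₀⟩ := hne
  have hA' : (k : ℝ) / (k + 1) < sSup {d : ℝ | ∃ F : ℕ → Finset G, IsFolner F ∧
    d = limsup (fun N => ((A ∩ (F N : Set G)).ncard : ℝ) / (F N).card) atTop} := hA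
  have hne' : {d : ℝ | ∃ F : ℕ → Finset G, IsFolner F ∧
    d = limsup (fun N => ((A ∩ (F N : Set G)).ncard : ℝ) / (F N).card) atTop}.Nonempty :=
    ⟨_, F₀, hF₀, rfl⟩
  obtain ⟨d, ⟨F, hF, rfl⟩, hd⟩ := exists_lt_of_lt_csSup hne' hA'
  have hcardpos : ∀ N, (0 : ℝ) < (F N).card := fun N => by exact_mod_cast (hF.1 N).card_pos
  set e : ℕ → ℝ := fun N => ∑ i, ((symmDiff ((fun x => x + a i) '' (F N : Set G))
    (F N : Set G)).ncard : ℝ) / (F N).card with he
  have he0 : Tendsto e atTop (𝓝 0) := by
    have := tendsto_finsetSum (Finset.univ : Finset (Fin k)) (fun i _ => hF.2 (a i))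
    rwa [Finset.sum_const_zero] at this
  have hk : (0 : ℝ) < k + 1 := by positivity
  have hle : ∀ N, ((A ∩ (F N : Set G)).ncard : ℝ) / (F N).card ≤
      (k : ℝ) / (k + 1) + e N / (k + 1) := by
    intro N
    set S := F N with hS
    have h1 : S ⊆ S.filter (fun x => x ∉ A) ∪
        Finset.univ.biUnion (fun i : Fin k => S.filter (fun x => x + a i ∉ A)) := by
      intro x hx
      by_cases hxA : x ∈ A
      · obtain ⟨i, hi⟩ := hcon x hxA
        refine Finset.mem_union_right _ (Finset.mem_biUnion.2 ⟨i, Finset.mem_univ _, ?_⟩)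
        exact Finset.mem_filter.2 ⟨hx, hi⟩
      · exact Finset.mem_union_left _ (Finset.mem_filter.2 ⟨hx, hxA⟩)
    have h2 : S.card ≤ (S.filter (fun x => x ∉ A)).card +
        ∑ i : Fin k, (S.filter (fun x => x + a i ∉ A)).card :=
      (Finset.card_le_card h1).trans ((Finset.card_union_le _ _).trans
        (Nat.add_le_add_left Finset.card_biUnion_le _))
    have h3 : ∀ i : Fin k, (((S.filter (fun x => x + a i ∉ A)).card : ℕ) : ℝ) / S.card ≤
        ((S.filter (fun x => x ∉ A)).card : ℝ) / S.card +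
        ((symmDiff ((fun x => x + a i) '' (S : Set G)) (S : Set G)).ncard : ℝ) / S.card := by
      intro i
      have := shift_ratio_le (S := S) (A := {x : G | x + a i ∉ A}) (B := {x : G | x ∉ A})
        (a := a i) (fun x hx => hx)
      rwa [ncard_filter, ncard_filter] at this
    have h4 : (A ∩ (S : Set G)).ncard + (S.filter (fun x => x ∉ A)).card = S.card := by
      have h5 : (A ∩ (S : Set G)).ncard = (S.filter (fun x => x ∈ A)).card := by
        rw [← ncard_filter]
        rfl
      rw [h5]
      exact Finset.card_filter_add_card_filter_not _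
    have h6 : ((A ∩ (S : Set G)).ncard : ℝ) / S.card +
        ((S.filter (fun x => x ∉ A)).card : ℝ) / S.card = 1 := by
      rw [← add_div, div_eq_one_iff_eq (hcardpos N).ne']
      exact_mod_cast h4
    have h7 : (1 : ℝ) ≤ ((S.filter (fun x => x ∉ A)).card : ℝ) / S.card +
        ∑ i : Fin k, ((S.filter (fun x => x + a i ∉ A)).card : ℝ) / S.card := by
      rw [← Finset.sum_div, ← add_div, one_le_div (hcardpos N)]
      exact_mod_cast h2
    have h8 : ∑ i : Fin k, ((S.filter (fun x => x + a i ∉ A)).card : ℝ) / S.card ≤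
        k * (((S.filter (fun x => x ∉ A)).card : ℝ) / S.card) + e N := by
      refine (Finset.sum_le_sum fun i _ => h3 i).trans ?_
      rw [Finset.sum_add_distrib]
      simp [he, hS]
    rw [← add_div, le_div_iff₀ hk]
    nlinarith
  have h9 : Tendsto (fun N => (k : ℝ) / (k + 1) + e N / (k + 1)) atTop
      (𝓝 ((k : ℝ) / (k + 1))) := by
    have := (he0.div_const ((k : ℝ) + 1)).const_add ((k : ℝ) / (k + 1))
    simpa using this
  have h10 := limsup_le_limsup (Eventually.of_forall hle)
    (isCoboundedUnder_le_of_le atTop (x := 0) (fun N => by positivity)) h9.isBoundedUnder_le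
  rw [h9.limsup_eq] at h10
  exact absurd hd (not_lt.2 h10)

/-- If every subset of the finite group `E` without translates of `{0, c_1, ..., c_k}` has at most
`M` elements, then every set of upper Banach density more than `M / |E|` contains a translate of
`{0, ψ(c_1), ..., ψ(c_k)}`, for every homomorphism `ψ` from `E`. -/
theorem exists_translate_of_hom [Fintype E] (hne : ∃ F : ℕ → Finset G, IsFolner F) {k : ℕ}
    (c : Fin k → E) (ψ : E →+ G) {M : ℕ} (hM : ∀ T : Finset E, Free c T → T.card ≤ M)
    {A : Set G} (hA : (M : ℝ) / Fintype.card E < upperBanachDensity A) :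
    ∃ x ∈ A, ∀ i, x + ψ (c i) ∈ A := by
  classical
  by_contra hcon
  push Not at hcon
  obtain ⟨F₀, hF₀⟩ := hne
  have hA' : (M : ℝ) / Fintype.card E < sSup {d : ℝ | ∃ F : ℕ → Finset G, IsFolner F ∧
    d = limsup (fun N => ((A ∩ (F N : Set G)).ncard : ℝ) / (F N).card) atTop} := hA
  have hne' : {d : ℝ | ∃ F : ℕ → Finset G, IsFolner F ∧
    d = limsup (fun N => ((A ∩ (F N : Set G)).ncard : ℝ) / (F N).card) atTop}.Nonempty :=
    ⟨_, F₀, hF₀, rfl⟩
  obtain ⟨d, ⟨F, hF, rfl⟩, hd⟩ := exists_lt_of_lt_csSup hne' hA'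
  have hcardpos : ∀ N, (0 : ℝ) < (F N).card := fun N => by exact_mod_cast (hF.1 N).card_pos
  set e : ℕ → ℝ := fun N => ∑ j : E, ((symmDiff ((fun x => x + -ψ j) '' (F N : Set G))
    (F N : Set G)).ncard : ℝ) / (F N).card with he
  have he0 : Tendsto e atTop (𝓝 0) := by
    have := tendsto_finsetSum (Finset.univ : Finset E) (fun j _ => hF.2 (-ψ j))
    rwa [Finset.sum_const_zero] at this
  have hq : (0 : ℝ) < Fintype.card E := by exact_mod_cast Fintype.card_pos
  have hle : ∀ N, ((A ∩ (F N : Set G)).ncard : ℝ) / (F N).card ≤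
      (M : ℝ) / Fintype.card E + e N / Fintype.card E := by
    intro N
    set S := F N with hS
    have hT : ∀ x : G, (Finset.univ.filter (fun j : E => x + ψ j ∈ A)).card ≤ M := by
      intro x
      apply hM
      intro j hj
      have hj' : x + ψ j ∈ A := (Finset.mem_filter.1 hj).2
      obtain ⟨i, hi⟩ := hcon _ hj'
      refine ⟨i, fun h => hi ?_⟩
      have h' : x + ψ (j + c i) ∈ A := (Finset.mem_filter.1 h).2
      rwa [map_add, ← add_assoc] at h'
    have h1 : ∑ j : E, (S.filter (fun x => x + ψ j ∈ A)).card ≤ M * S.card := by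
      have h2 : ∑ j : E, (S.filter (fun x => x + ψ j ∈ A)).card =
          ∑ x ∈ S, (Finset.univ.filter (fun j : E => x + ψ j ∈ A)).card := by
        simp_rw [Finset.card_filter]
        exact Finset.sum_comm
      rw [h2]
      calc ∑ x ∈ S, (Finset.univ.filter (fun j : E => x + ψ j ∈ A)).card ≤ ∑ _x ∈ S, M :=
            Finset.sum_le_sum fun x _ => hT x
        _ = M * S.card := by rw [Finset.sum_const, smul_eq_mul, mul_comm]
    have h3 : ∀ j : E, ((A ∩ (S : Set G)).ncard : ℝ) / S.card ≤
        ((S.filter (fun x => x + ψ j ∈ A)).card : ℝ) / S.card +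
        ((symmDiff ((fun x => x + -ψ j) '' (S : Set G)) (S : Set G)).ncard : ℝ) / S.card := by
      intro j
      have := shift_ratio_le (S := S) (A := A) (B := {x : G | x + ψ j ∈ A})
        (a := -ψ j) (fun x hx => by
          show x + -ψ j + ψ j ∈ A
          rwa [neg_add_cancel_right])
      rwa [ncard_filter] at this
    have h4 : Fintype.card E * (((A ∩ (S : Set G)).ncard : ℝ) / S.card) ≤
        (∑ j : E, ((S.filter (fun x => x + ψ j ∈ A)).card : ℝ)) / S.card + e N := by
      have h5 := Finset.sum_le_sum (s := (Finset.univ : Finset E)) fun j _ => h3 j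
      rw [Finset.sum_add_distrib, Finset.sum_const, Finset.card_univ, nsmul_eq_mul,
        ← Finset.sum_div] at h5
      exact h5
    have h6 : (∑ j : E, ((S.filter (fun x => x + ψ j ∈ A)).card : ℝ)) / S.card ≤ M := by
      rw [div_le_iff₀ (hcardpos N)]
      exact_mod_cast h1
    rw [← add_div, le_div_iff₀ hq]
    linarith
  have h9 : Tendsto (fun N => (M : ℝ) / Fintype.card E + e N / Fintype.card E) atTop
      (𝓝 ((M : ℝ) / Fintype.card E)) := by
    have := (he0.div_const (Fintype.card E : ℝ)).const_add ((M : ℝ) / Fintype.card E)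
    simpa using this
  have h10 := limsup_le_limsup (Eventually.of_forall hle)
    (isCoboundedUnder_le_of_le atTop (x := 0) (fun N => by positivity)) h9.isBoundedUnder_le
  rw [h9.limsup_eq] at h10
  exact absurd hd (not_lt.2 h10)

end Counting

/-! ### The polynomial -/

/-- In an algebra over the field `F` with `q` elements, `∏_{c ∈ F} (z - c) = z^q - z`. -/
theorem prod_sub {F O : Type*} [Field F] [Fintype F] [CommRing O]
    [Algebra F O] (z : O) : ∏ c : F, (z - algebraMap F O c) = z ^ Fintype.card F - z := by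
  have hq := Fintype.one_lt_card (α := F)
  have hprod : (∏ c : F, (X - C c)) = (X ^ Fintype.card F - X : F[X]) := by
    have hmon : (X ^ Fintype.card F - X : F[X]).Monic := monic_X_pow_sub (by
      rw [degree_X]
      exact_mod_cast hq)
    have hroots := FiniteField.roots_X_pow_card_sub_X F
    have hcard : Multiset.card (X ^ Fintype.card F - X : F[X]).roots =
        (X ^ Fintype.card F - X : F[X]).natDegree := by
      rw [hroots, FiniteField.X_pow_card_sub_X_natDegree_eq F hq]
      rfl
    have := prod_multiset_X_sub_C_of_monic_of_roots_card_eq hmon hcard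
    rw [hroots] at this
    exact this
  have h1 := congrArg (fun p : F[X] => aeval z p) hprod
  simpa only [map_prod, map_sub, aeval_X, aeval_C, map_pow] using h1

/-- In a domain over `F`, the solutions of `z^q = z` are the elements of `F`. -/
theorem mem_range_of_pow_card {F O : Type*} [Field F] [Fintype F] [CommRing O] [IsDomain O]
    [Algebra F O] {z : O} (hz : z ^ Fintype.card F = z) : ∃ c : F, algebraMap F O c = z := by
  have h1 := prod_sub (F := F) z
  rw [hz, sub_self] at h1
  obtain ⟨c, -, hc⟩ := Finset.prod_eq_zero_iff.1 h1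
  exact ⟨c, (sub_eq_zero.1 hc).symm⟩

theorem mul_dvd {F O : Type*} [Field F] [Fintype F] [CommRing O] [Algebra F O] (z : O) :
    z * (z + 1) ∣ z ^ Fintype.card F - z := by
  classical
  rw [← prod_sub (F := F) z]
  have h01 : (0 : F) ≠ -1 := fun h => one_ne_zero (α := F) (by linear_combination h)
  have h2 : z * (z + 1) = ∏ c ∈ ({0, -1} : Finset F), (z - algebraMap F O c) := by
    rw [Finset.prod_pair h01]
    simp
  rw [h2]
  exact Finset.prod_dvd_prod_of_subset _ _ _ (Finset.subset_univ _)

/-- The `F`-linear map `L(n) = (s n)^q - s n`. -/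
noncomputable def linMap (F : Type*) {O : Type*} [Field F] [Fintype F] [CommRing O] [Algebra F O]
    (s : O) : O →ₗ[F] O :=
  (FiniteField.frobeniusAlgHom F O).toLinearMap.comp (LinearMap.mulLeft F s) -
    LinearMap.mulLeft F s

theorem linMap_apply (F : Type*) {O : Type*} [Field F] [Fintype F] [CommRing O] [Algebra F O]
    (s n : O) : linMap F s n = (s * n) ^ Fintype.card F - s * n := by
  simp [linMap, FiniteField.coe_frobeniusAlgHom]

theorem frob_sub (F : Type*) {O : Type*} [Field F] [Fintype F] [CommRing O] [Algebra F O]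
    (a b : O) : (a - b) ^ Fintype.card F = a ^ Fintype.card F - b ^ Fintype.card F := by
  have := map_sub (FiniteField.frobeniusAlgHom F O) a b
  simpa [FiniteField.coe_frobeniusAlgHom] using this

/-- With `t` and `t - 1` nonunits, `L(n) = t^q - t` has no solution, for `s = t(t-1)`. -/
theorem linMap_ne {F O : Type*} [Field F] [Fintype F] [CommRing O] [IsDomain O] [Algebra F O]
    {t : O} (ht : ¬ IsUnit t) (ht1 : ¬ IsUnit (t - 1)) (ht0 : t ≠ 0) (n : O) :
    linMap F (t * (t - 1)) n ≠ t ^ Fintype.card F - t := by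
  intro h
  rw [linMap_apply] at h
  have hz : (t * (t - 1) * n - t) ^ Fintype.card F = t * (t - 1) * n - t := by
    rw [frob_sub]
    linear_combination h
  obtain ⟨c, hc⟩ := mem_range_of_pow_card (F := F) hz
  rcases eq_or_ne c 0 with rfl | hc0
  · rw [map_zero] at hc
    have h3 : t * ((t - 1) * n - 1) = 0 := by linear_combination -hc
    rcases mul_eq_zero.1 h3 with h4 | h4
    · exact ht0 h4
    · exact ht1 (IsUnit.of_mul_eq_one n (sub_eq_zero.1 h4))
  · apply ht
    have hcu : IsUnit (algebraMap F O c) := (IsUnit.mk0 c hc0).map (algebraMap F O)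
    have h5 : t * ((t - 1) * n - 1) = algebraMap F O c := by rw [hc]; ring
    rw [← h5] at hcu
    exact isUnit_of_mul_isUnit_left hcu

/-- A root of `(t x - 1) ((t - 1) x - 1)` modulo `I`, given `t^k (1 - t u) ∈ I`. -/
theorem exists_mem {O : Type*} [CommRing O] {I : Ideal O} {t u : O} {k : ℕ}
    (h : t ^ k * (1 - t * u) ∈ I) :
    ∃ n : O, (t * n - 1) * ((t - 1) * n - 1) ∈ I := by
  set f := Ideal.Quotient.mk I
  set T := f t
  set U := f u
  have h0 : T ^ k * (1 - T * U) = 0 := by
    have := Ideal.Quotient.eq_zero_iff_mem.2 h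
    simpa [T, U, f] using this
  obtain ⟨w, hw⟩ : ∃ w : O, (t - 1) * w = 1 - t ^ k := by
    refine ⟨-(∑ i ∈ Finset.range k, t ^ i), ?_⟩
    have := geom_sum_mul t k
    linear_combination -this
  set W := f w
  have hW : (T - 1) * W = 1 - T ^ k := by
    have := congrArg f hw
    simpa [T, W, f] using this
  have h1 : T ^ k * (T * U) = T ^ k := by linear_combination -h0
  have h2 : ∀ j, T ^ k * (T * U) ^ j = T ^ k := by
    intro j
    induction j with
    | zero => simp
    | succ j ih => rw [pow_succ, ← mul_assoc, ih, h1]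
  set E := T ^ k * U ^ k with hE
  have hE2 : E * E = E := by
    have := h2 k
    rw [mul_pow] at this
    calc E * E = (T ^ k * (T ^ k * U ^ k)) * U ^ k := by rw [hE]; ring
      _ = E := by rw [this]
  have hE3 : E * (T * U - 1) = 0 := by
    rw [hE]
    linear_combination -U ^ k * h0
  have hE4 : (1 - E) * T ^ k = 0 := by
    have := h2 k
    rw [mul_pow] at this
    rw [hE]
    linear_combination -this
  refine ⟨t ^ k * u ^ k * u + (1 - t ^ k * u ^ k) * w, ?_⟩
  rw [← Ideal.Quotient.eq_zero_iff_mem]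
  have hn : f (t ^ k * u ^ k * u + (1 - t ^ k * u ^ k) * w) = E * U + (1 - E) * W := by
    simp [T, U, W, E, f]
  have : f ((t * (t ^ k * u ^ k * u + (1 - t ^ k * u ^ k) * w) - 1) *
      ((t - 1) * (t ^ k * u ^ k * u + (1 - t ^ k * u ^ k) * w) - 1)) =
      (T * (E * U + (1 - E) * W) - 1) * ((T - 1) * (E * U + (1 - E) * W) - 1) := by
    rw [map_mul, map_sub, map_mul, map_sub, map_mul, map_sub, hn, map_one]
  rw [this]
  have e1 : T * (E * U + (1 - E) * W) - 1 = (1 - E) * (T * W - 1) := by
    linear_combination hE3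
  have e2 : (T - 1) * (E * U + (1 - E) * W) - 1 = E * ((T - 1) * U - 1) := by
    linear_combination (1 - E) * hW - hE4
  rw [e1, e2]
  linear_combination -(T * W - 1) * ((T - 1) * U - 1) * hE2

/-- The polynomial `P(x) = (s x)^q - s x - (t^q - t)`, `s = t (t - 1)`. -/
noncomputable def poly {O : Type*} [CommRing O] (q : ℕ) (t : O) : O[X] :=
  (C (t * (t - 1)) * X) ^ q - C (t * (t - 1)) * X - C (t ^ q - t)

theorem eval_poly {O : Type*} [CommRing O] (q : ℕ) (t n : O) :
    (poly q t).eval n = (t * (t - 1) * n) ^ q - t * (t - 1) * n - (t ^ q - t) := by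
  simp [poly]

theorem coeff_poly {O : Type*} [CommRing O] {q : ℕ} (hq : 1 < q) (t : O) :
    (poly q t).coeff q = (t * (t - 1)) ^ q := by
  have h0 : q ≠ 0 := by omega
  have h1 : q ≠ 1 := by omega
  rw [poly, mul_pow, ← C_pow, coeff_sub, coeff_sub, coeff_C_mul_X_pow, if_pos rfl,
    coeff_C_mul_X, if_neg h1, coeff_C, if_neg h0]
  ring

/-- `P(n) ∈ I` for some `n`, for every nonzero ideal `I`. -/
theorem root_mod {F O : Type*} [Field F] [Fintype F] [CommRing O] [Algebra F O] {t : O}
    (hI : ∀ I : Ideal O, I ≠ ⊥ → ∃ (k : ℕ) (u : O), t ^ k * (1 - t * u) ∈ I)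
    (I : Ideal O) (hI0 : I ≠ ⊥) : ∃ n : O, (poly (Fintype.card F) t).eval n ∈ I := by
  obtain ⟨m, u, hmu⟩ := hI I hI0
  obtain ⟨n, hn⟩ := exists_mem hmu
  refine ⟨n, ?_⟩
  rw [eval_poly]
  have h1 : (t * (t - 1) * n) ^ Fintype.card F - t * (t - 1) * n - (t ^ Fintype.card F - t) =
      (t * (t - 1) * n - t) ^ Fintype.card F - (t * (t - 1) * n - t) := by
    rw [frob_sub]
    ring
  rw [h1]
  obtain ⟨r, hr⟩ := mul_dvd (F := F) (t * (t - 1) * n - t)
  rw [hr]
  apply I.mul_mem_right
  have h2 : (t * (t - 1) * n - t) * (t * (t - 1) * n - t + 1) =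
      (t * (t - 1)) * ((t * n - 1) * ((t - 1) * n - 1)) := by ring
  rw [h2]
  exact I.mul_mem_left _ hn

theorem poly_ne_zero {O : Type*} [CommRing O] [IsDomain O] {q : ℕ} (hq : 1 < q) {t : O}
    (ht : ¬ IsUnit t) (ht0 : t ≠ 0) : (poly q t).coeff q ≠ 0 := by
  have ht10 : t - 1 ≠ 0 := fun h => ht (by rw [sub_eq_zero.1 h]; exact isUnit_one)
  rw [coeff_poly hq]
  exact pow_ne_zero _ (mul_ne_zero ht0 ht10)

/-- There is a linear functional `f` with `f (L(n)) = 0` and `f (P(n)) = 1` for all `n`. -/
theorem exists_functional {F O : Type*} [Field F] [Fintype F] [CommRing O] [IsDomain O]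
    [Algebra F O] {t : O} (ht : ¬ IsUnit t) (ht1 : ¬ IsUnit (t - 1)) (ht0 : t ≠ 0) :
    ∃ f : O →ₗ[F] F, (∀ n : O, f (linMap F (t * (t - 1)) n) = 0) ∧
      ∀ n : O, f ((poly (Fintype.card F) t).eval n) = 1 := by
  have hd : t ^ Fintype.card F - t ∉ LinearMap.range (linMap F (t * (t - 1))) := by
    rintro ⟨n, hn⟩
    exact linMap_ne ht ht1 ht0 n hn
  obtain ⟨f, hf, hle⟩ := Submodule.exists_le_ker_of_notMem hd
  have h4 : ∀ n : O, f (linMap F (t * (t - 1)) n) = 0 := fun n => hle ⟨n, rfl⟩
  refine ⟨-(f (t ^ Fintype.card F - t))⁻¹ • f, fun n => ?_, fun n => ?_⟩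
  · rw [LinearMap.smul_apply, h4 n, smul_zero]
  · have h5 := h4 n
    rw [linMap_apply] at h5
    rw [LinearMap.smul_apply, eval_poly, map_sub f _ (t ^ Fintype.card F - t), h5, zero_sub,
      smul_eq_mul, neg_mul_neg, inv_mul_cancel₀ hf]

/-- The inner polynomial `s x^{i+1} P(x)`. -/
noncomputable def inner {O : Type*} [CommRing O] (q : ℕ) (t : O) (i : ℕ) : O[X] :=
  C (t * (t - 1)) * (X ^ (i + 1) * poly q t)

/-- The family `P_i(x) = c_i P(x) + L(x^{i+1} P(x))`, where `L(y) = (s y)^q - s y`. -/
noncomputable def fam {O : Type*} [CommRing O] (q : ℕ) (t c : O) (i : ℕ) : O[X] :=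
  C c * poly q t + (inner q t i ^ q - inner q t i)

theorem eval_fam {O : Type*} [CommRing O] (q : ℕ) (t c : O) (i : ℕ) (n : O) :
    (fam q t c i).eval n = c * (poly q t).eval n +
      ((t * (t - 1) * (n ^ (i + 1) * (poly q t).eval n)) ^ q -
        t * (t - 1) * (n ^ (i + 1) * (poly q t).eval n)) := by
  simp [fam, inner]

theorem natDegree_fam {O : Type*} [CommRing O] [IsDomain O] {q : ℕ} (hq : 1 < q) {t : O}
    (ht : ¬ IsUnit t) (ht0 : t ≠ 0) (c : O) (i : ℕ) :
    (fam q t c i).natDegree = q * (i + 1 + (poly q t).natDegree) := by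
  have ht10 : t - 1 ≠ 0 := fun h => ht (by rw [sub_eq_zero.1 h]; exact isUnit_one)
  have hP0 : poly q t ≠ 0 := by
    intro h
    apply poly_ne_zero hq ht ht0
    rw [h, coeff_zero]
  have h1 : (inner q t i).natDegree = i + 1 + (poly q t).natDegree := by
    rw [inner, natDegree_C_mul (mul_ne_zero ht0 ht10),
      natDegree_mul (pow_ne_zero _ X_ne_zero) hP0, natDegree_X_pow]
  have h2 : (inner q t i ^ q).natDegree = q * (i + 1 + (poly q t).natDegree) := by
    rw [natDegree_pow, h1]
  have h5 : i + 1 + (poly q t).natDegree < q * (i + 1 + (poly q t).natDegree) := by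
    have : 0 < i + 1 + (poly q t).natDegree := by omega
    nlinarith
  have h3 : (inner q t i ^ q - inner q t i).natDegree =
      q * (i + 1 + (poly q t).natDegree) := by
    rw [natDegree_sub_eq_left_of_natDegree_lt (by rw [h1, h2]; exact h5), h2]
  have h4 : (C c * poly q t).natDegree ≤ (poly q t).natDegree := natDegree_C_mul_le _ _
  rw [fam, natDegree_add_eq_right_of_natDegree_lt (by rw [h3]; omega), h3]

/-- The construction in an abstract form. -/
theorem main {F O : Type*} [Field F] [Fintype F] [CommRing O] [IsDomain O] [Algebra F O]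
    {t : O} (ht : ¬ IsUnit t) (ht1 : ¬ IsUnit (t - 1)) (ht0 : t ≠ 0)
    (hI : ∀ I : Ideal O, I ≠ ⊥ → ∃ (k : ℕ) (u : O), t ^ k * (1 - t * u) ∈ I)
    {k : ℕ} (c : Fin k → F) :
    ∃ (P : Fin k → O[X]) (φ : O →+ F), Function.Surjective φ ∧ Function.Injective P ∧
      (∀ i, 0 < (P i).natDegree) ∧ RootModEveryIdeal P ∧
      ∀ (i : Fin k) (n : O), φ ((P i).eval n) = c i := by
  have hq := Fintype.one_lt_card (α := F)
  obtain ⟨f, hf0, hf1⟩ := exists_functional (F := F) ht ht1 ht0
  refine ⟨fun i => fam (Fintype.card F) t (algebraMap F O (c i)) i, f.toAddMonoidHom,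
    ?_, ?_, ?_, ?_, ?_⟩
  · intro y
    refine ⟨y • (poly (Fintype.card F) t).eval 0, ?_⟩
    show f (y • (poly (Fintype.card F) t).eval 0) = y
    rw [map_smul, hf1, smul_eq_mul, mul_one]
  · intro i j hij
    have h := congrArg natDegree hij
    rw [natDegree_fam hq ht ht0, natDegree_fam hq ht ht0] at h
    have h2 := Nat.eq_of_mul_eq_mul_left (by omega) h
    exact Fin.ext (by omega)
  · intro i
    show 0 < (fam (Fintype.card F) t (algebraMap F O (c i)) i).natDegree
    rw [natDegree_fam hq ht ht0]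
    exact Nat.mul_pos (by omega) (by omega)
  · intro I hI0
    obtain ⟨n, hn⟩ := root_mod (F := F) hI I hI0
    refine ⟨n, fun i => ?_⟩
    show (fam (Fintype.card F) t (algebraMap F O (c i)) i).eval n ∈ I
    rw [eval_fam]
    have h1 : t * (t - 1) * (n ^ ((i : ℕ) + 1) * (poly (Fintype.card F) t).eval n) ∈ I :=
      I.mul_mem_left _ (I.mul_mem_left _ hn)
    exact I.add_mem (I.mul_mem_left _ hn)
      (I.sub_mem (I.pow_mem_of_mem h1 _ (by omega)) h1)
  · intro i n
    show f ((fam (Fintype.card F) t (algebraMap F O (c i)) i).eval n) = c i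
    have h1 := hf0 (n ^ ((i : ℕ) + 1) * (poly (Fintype.card F) t).eval n)
    rw [linMap_apply] at h1
    rw [eval_fam, map_add, h1, add_zero, ← Algebra.smul_def, map_smul, hf1, smul_eq_mul, mul_one]

/-- The family `P_i = c_i P`, in an abstract form. -/
theorem main_mul {F O : Type*} [Field F] [Fintype F] [CommRing O] [IsDomain O] [Algebra F O]
    {t : O} (ht : ¬ IsUnit t) (ht1 : ¬ IsUnit (t - 1)) (ht0 : t ≠ 0)
    (hI : ∀ I : Ideal O, I ≠ ⊥ → ∃ (k : ℕ) (u : O), t ^ k * (1 - t * u) ∈ I)
    {k : ℕ} (c : Fin k → F) (hc : ∀ i, c i ≠ 0) :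
    ∃ P : Fin k → O[X], (Function.Injective c → Function.Injective P) ∧
      (∀ i, 0 < (P i).natDegree) ∧ RootModEveryIdeal P ∧
      (∃ φ : O →+ F, Function.Surjective φ ∧ ∀ (i : Fin k) (n : O), φ ((P i).eval n) = c i) ∧
      ∀ n : O, ∃ ψ : F →+ O, ∀ i, ψ (c i) = (P i).eval n := by
  have hq := Fintype.one_lt_card (α := F)
  obtain ⟨f, hf0, hf1⟩ := exists_functional (F := F) ht ht1 ht0
  have hinj : Function.Injective (algebraMap F O) := (algebraMap F O).injective
  have hPn : 0 < (poly (Fintype.card F) t).natDegree := by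
    have := le_natDegree_of_ne_zero (poly_ne_zero hq ht ht0)
    omega
  have hP0 : poly (Fintype.card F) t ≠ 0 := by
    intro h
    rw [h, natDegree_zero] at hPn
    exact absurd hPn (lt_irrefl 0)
  refine ⟨fun i => C (algebraMap F O (c i)) * poly (Fintype.card F) t, ?_, ?_, ?_, ?_, ?_⟩
  · intro hci i j hij
    have h1 := mul_right_cancel₀ hP0 hij
    exact hci (hinj (C_injective h1))
  · intro i
    show 0 < (C (algebraMap F O (c i)) * poly (Fintype.card F) t).natDegree
    rw [natDegree_C_mul]
    · exact hPn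
    · intro h
      exact hc i (hinj (by rw [h, map_zero]))
  · intro I hI0
    obtain ⟨n, hn⟩ := root_mod (F := F) hI I hI0
    refine ⟨n, fun i => ?_⟩
    show (C (algebraMap F O (c i)) * poly (Fintype.card F) t).eval n ∈ I
    rw [eval_mul, eval_C]
    exact I.mul_mem_left _ hn
  · refine ⟨f.toAddMonoidHom, fun y => ?_, fun i n => ?_⟩
    · refine ⟨y • (poly (Fintype.card F) t).eval 0, ?_⟩
      show f (y • (poly (Fintype.card F) t).eval 0) = y
      rw [map_smul, hf1, smul_eq_mul, mul_one]
    · show f ((C (algebraMap F O (c i)) * poly (Fintype.card F) t).eval n) = c i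
      rw [eval_mul, eval_C, ← Algebra.smul_def, map_smul, hf1, smul_eq_mul, mul_one]
  · intro n
    refine ⟨(AddMonoidHom.mulRight ((poly (Fintype.card F) t).eval n)).comp
      (algebraMap F O).toAddMonoidHom, fun i => ?_⟩
    simp [eval_mul]

/-- `φ⁻¹(T)` contains no configuration if `T` contains no translate of `{0, c_1, ..., c_k}`. -/
theorem no_config {F O : Type*} [Field F] [CommRing O] {k : ℕ} {c : Fin k → F}
    {P : Fin k → O[X]} {φ : O →+ F} (hφ : ∀ (i : Fin k) (n : O), φ ((P i).eval n) = c i)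
    {T : Finset F} (hT : Free c T) :
    ¬ ∃ x n : O, x ∈ {z : O | φ z ∈ T} ∧ ∀ i, x + (P i).eval n ∈ {z : O | φ z ∈ T} := by
  rintro ⟨x, n, hx, h⟩
  obtain ⟨i, hi⟩ := hT _ hx
  apply hi
  have h1 : φ (x + (P i).eval n) ∈ T := h i
  rwa [map_add, hφ] at h1

/-- The family for `k ≥ 2` in which each polynomial has a root:
`x P(x), (x - 1) P(x), x^2 P(x), x^3 P(x), ...` -/
noncomputable def famRoot {O : Type*} [CommRing O] (P : O[X]) (i : ℕ) : O[X] :=
  (if i = 0 then X else if i = 1 then X - 1 else X ^ i) * P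

/-- The family with roots, for `k ≥ 2`, in an abstract form. -/
theorem main_root {F O : Type*} [Field F] [Fintype F] [CommRing O] [IsDomain O] [Algebra F O]
    {t : O} (ht : ¬ IsUnit t) (ht1 : ¬ IsUnit (t - 1)) (ht0 : t ≠ 0)
    (hI : ∀ I : Ideal O, I ≠ ⊥ → ∃ (k : ℕ) (u : O), t ^ k * (1 - t * u) ∈ I)
    {k : ℕ} (hk : 2 ≤ k) :
    ∃ (P : Fin k → O[X]) (φ : O →+ F), Function.Surjective φ ∧ Function.Injective P ∧
      (∀ i, 0 < (P i).natDegree ∧ ∃ r : O, (P i).eval r = 0) ∧
      RootModEveryIdeal P ∧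
      ∀ n : O, φ ((P ⟨0, by omega⟩).eval n - (P ⟨1, by omega⟩).eval n) = 1 := by
  have hq := Fintype.one_lt_card (α := F)
  obtain ⟨f, hf0, hf1⟩ := exists_functional (F := F) ht ht1 ht0
  set Q := poly (Fintype.card F) t with hQ
  have hQc := poly_ne_zero hq ht ht0
  have hQ0 : Q ≠ 0 := by
    intro h
    apply hQc
    rw [← hQ, h, coeff_zero]
  have hfac : ∀ i : ℕ, (if i = 0 then X else if i = 1 then X - 1 else X ^ i : O[X]) ≠ 0 := by
    intro i
    split_ifs with h0 h1
    · exact X_ne_zero
    · rw [← C_1]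
      exact X_sub_C_ne_zero 1
    · exact pow_ne_zero _ X_ne_zero
  have hdeg : ∀ i : ℕ, (if i = 0 then X else if i = 1 then X - 1 else X ^ i : O[X]).natDegree =
      if i = 0 then 1 else i := by
    intro i
    split_ifs with h0 h1
    · exact natDegree_X
    · rw [← C_1, natDegree_X_sub_C, h1]
    · exact natDegree_X_pow i
  refine ⟨fun i => famRoot Q i, f.toAddMonoidHom, ?_, ?_, ?_, ?_, ?_⟩
  · intro y
    refine ⟨y • Q.eval 0, ?_⟩
    show f (y • Q.eval 0) = y
    rw [map_smul, hf1, smul_eq_mul, mul_one]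
  · intro i j hij
    have h1 := mul_right_cancel₀ hQ0 hij
    have h2 := congrArg natDegree h1
    rw [hdeg, hdeg] at h2
    by_contra hne
    have hne' : (i : ℕ) ≠ j := fun h => hne (Fin.ext h)
    have hX : (X : O[X]) ≠ X - 1 := by
      intro h
      have : (1 : O[X]) = 0 := by linear_combination h
      exact one_ne_zero this
    split_ifs at h2 with hi hj hj
    · exact hne' (by rw [hi, hj])
    · rw [if_pos hi, if_neg hj, if_pos h2.symm] at h1
      exact hX h1
    · rw [if_pos hj, if_neg hi, if_pos h2] at h1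
      exact hX h1.symm
    · exact hne' h2
  · intro i
    constructor
    · show 0 < (famRoot Q i).natDegree
      rw [famRoot, natDegree_mul (hfac i) hQ0, hdeg]
      split_ifs <;> omega
    · by_cases h1 : (i : ℕ) = 1
      · exact ⟨1, by simp [famRoot, h1]⟩
      · refine ⟨0, ?_⟩
        by_cases h0 : (i : ℕ) = 0
        · simp [famRoot, h0]
        · simp [famRoot, h0, h1]
  · intro I hI0
    obtain ⟨n, hn⟩ := root_mod (F := F) hI I hI0
    refine ⟨n, fun i => ?_⟩
    show (famRoot Q i).eval n ∈ I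
    rw [famRoot, eval_mul]
    exact I.mul_mem_left _ hn
  · intro n
    show f ((famRoot Q 0).eval n - (famRoot Q 1).eval n) = 1
    have h3 : (famRoot Q 0).eval n - (famRoot Q 1).eval n = Q.eval n := by
      simp only [famRoot, if_true, one_ne_zero, if_false, eval_mul, eval_X, eval_sub, eval_one]
      ring
    rw [h3]
    exact hf1 n

/-! ### Rings of integers of global function fields -/

/-- The facts about `O_K` that the construction uses. -/
theorem ringOfIntegers_facts (Fq K : Type*) [Field Fq] [Fintype Fq] [Field K] [Algebra Fq[X] K]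
    [Algebra (RatFunc Fq) K] [IsScalarTower Fq[X] (RatFunc Fq) K] [FunctionField Fq K] :
    Countable (FunctionField.ringOfIntegers Fq K) ∧
    ∃ t : FunctionField.ringOfIntegers Fq K, ¬ IsUnit t ∧ ¬ IsUnit (t - 1) ∧ t ≠ 0 ∧
      ∀ I : Ideal (FunctionField.ringOfIntegers Fq K), I ≠ ⊥ →
        ∃ (k : ℕ) (u : FunctionField.ringOfIntegers Fq K), t ^ k * (1 - t * u) ∈ I := by
  have hinj := FunctionField.ringOfIntegers.algebraMap_injective Fq K
  have hint : Algebra.IsIntegral Fq[X] (FunctionField.ringOfIntegers Fq K) :=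
    IsIntegralClosure.isIntegral_algebra Fq[X] K
  have hloc : IsLocalHom (algebraMap Fq[X] (FunctionField.ringOfIntegers Fq K)) :=
    (algebraMap_isIntegral_iff.mpr hint).isLocalHom hinj
  constructor
  · have h0 : Countable Fq[X] := by
      rw [← Cardinal.mk_le_aleph0_iff]
      exact cardinalMk_le_max.trans (max_le (Cardinal.mk_le_aleph0_iff.2 inferInstance) le_rfl)
    have htf : Module.IsTorsionFree Fq[X] K :=
      Module.isTorsionFree_iff_algebraMap_injective.2 (FunctionField.algebraMap_injective Fq K)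
    have h1 : Set.Countable {x : K | IsAlgebraic Fq[X] x} := Algebraic.countable Fq[X] K
    have h2 : Set.Countable (FunctionField.ringOfIntegers Fq K : Set K) := by
      refine h1.mono (fun x hx => ?_)
      exact IsIntegral.isAlgebraic hx
    exact h2.to_subtype
  refine ⟨algebraMap Fq[X] (FunctionField.ringOfIntegers Fq K) X, ?_, ?_, ?_, ?_⟩
  · intro h
    exact not_isUnit_X
      (isUnit_of_map_unit (algebraMap Fq[X] (FunctionField.ringOfIntegers Fq K)) _ h)
  · intro h
    rw [← map_one (algebraMap Fq[X] (FunctionField.ringOfIntegers Fq K)), ← map_sub] at h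
    have := isUnit_of_map_unit (algebraMap Fq[X] (FunctionField.ringOfIntegers Fq K)) _ h
    rw [← C_1] at this
    exact not_isUnit_X_sub_C 1 this
  · intro h
    exact X_ne_zero (hinj (by rw [h, map_zero]))
  · intro I hI
    have h1 : I.comap (algebraMap Fq[X] (FunctionField.ringOfIntegers Fq K)) ≠ ⊥ :=
      Ideal.IsIntegral.comap_ne_bot _ hI
    obtain ⟨g, hg, hg0⟩ := Submodule.exists_mem_ne_zero_of_ne_bot h1
    obtain ⟨h, hgh, hh⟩ :=
      (FiniteMultiplicity.of_not_isUnit not_isUnit_X hg0).exists_eq_pow_mul_and_not_dvd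
    generalize multiplicity X g = k at hgh
    subst hgh
    have hcop : IsCoprime (X : Fq[X]) h := (Irreducible.coprime_iff_not_dvd irreducible_X).2 hh
    obtain ⟨u, v, huv⟩ := hcop
    refine ⟨k, algebraMap _ _ u, ?_⟩
    have h2 : algebraMap Fq[X] (FunctionField.ringOfIntegers Fq K) (v * (X ^ k * h)) ∈ I := by
      rw [map_mul]
      exact I.mul_mem_left _ hg
    have h3 : v * (X ^ k * h) = X ^ k * (1 - X * u) := by
      linear_combination X ^ k * huv
    rw [h3] at h2
    simpa using h2

/-! ### The result -/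

/-- The set `A` contains no configuration `{x, x + P_1(n), ..., x + P_k(n)}`. -/
def NoConfig {O : Type*} [CommRing O] {k : ℕ} (P : Fin k → O[X]) (A : Set O) : Prop :=
  ¬ ∃ x n : O, x ∈ A ∧ ∀ i, x + (P i).eval n ∈ A

/-- The set `A` contains a configuration `{x, x + P_1(n), ..., x + P_k(n)}` for every `n`. -/
def AllConfig {O : Type*} [CommRing O] {k : ℕ} (P : Fin k → O[X]) (A : Set O) : Prop :=
  ∀ n : O, ∃ x ∈ A, ∀ i, x + (P i).eval n ∈ A

/-- The polynomials are nonconstant and distinct, and satisfy condition (i). -/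
def Good {O : Type*} [CommRing O] {k : ℕ} (P : Fin k → O[X]) : Prop :=
  Function.Injective P ∧ (∀ i, 0 < (P i).natDegree) ∧ RootModEveryIdeal P

/-- The set `A` has density `δ` along every Folner sequence, and its upper Banach density is `δ`. -/
def HasDensity {G : Type*} [AddCommGroup G] (A : Set G) (δ : ℝ) : Prop :=
  (∀ F : ℕ → Finset G, IsFolner F →
    Tendsto (fun N => ((A ∩ (F N : Set G)).ncard : ℝ) / (F N).card) atTop (𝓝 δ)) ∧
  upperBanachDensity A = δ

/-- The ring of integers of `K`. -/
abbrev IntRing (Fq K : Type*) [Field Fq] [Field K] [Algebra Fq[X] K] : Type _ :=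
  FunctionField.ringOfIntegers Fq K

/-- **The equivalence of (i) and (ii) fails for every global function field `K` and every `k ≥ 1`,
with exact densities.**  Here `q` is the number of elements of `Fq`, and `K` is a finite extension
of `Fq(t)`. -/
theorem result (Fq K : Type*) [Field Fq] [Fintype Fq] [Field K] [Algebra Fq[X] K]
    [Algebra (RatFunc Fq) K] [IsScalarTower Fq[X] (RatFunc Fq) K] [FunctionField Fq K]
    (k : ℕ) :
    -- (1) arbitrary constant values of a homomorphism onto `F_q`, and exact densities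
    (∀ c : Fin k → Fq, ∃ (P : Fin k → (IntRing Fq K)[X]) (φ : IntRing Fq K →+ Fq),
      Good P ∧ Function.Surjective φ ∧ (∀ i n, φ ((P i).eval n) = c i) ∧
      ∀ T : Finset Fq, Free c T →
        NoConfig P {x | φ x ∈ T} ∧ HasDensity {x | φ x ∈ T} (T.card / Fintype.card Fq)) ∧
    -- (2) the exact critical density of the families `c_1 P, ..., c_k P`
    (∀ c : Fin k → Fq, Function.Injective c → (∀ i, c i ≠ 0) → ∀ M : ℕ,
      IsGreatest {m : ℕ | ∃ T : Finset Fq, Free c T ∧ T.card = m} M →
      ∃ P : Fin k → (IntRing Fq K)[X], Good P ∧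
        (∃ A, upperBanachDensity A = M / Fintype.card Fq ∧ NoConfig P A) ∧
        ∀ A, M / Fintype.card Fq < upperBanachDensity A → AllConfig P A) ∧
    -- (3) the upper bound `k / (k + 1)` for all polynomials
    (∀ (P : Fin k → (IntRing Fq K)[X]) (A : Set (IntRing Fq K)),
      (k : ℝ) / (k + 1) < upperBanachDensity A → AllConfig P A) ∧
    -- (4) it is sharp for `k = q - 1`
    (k + 1 = Fintype.card Fq → ∃ P : Fin k → (IntRing Fq K)[X], Good P ∧
      ∃ A, upperBanachDensity A = k / (k + 1) ∧ NoConfig P A) ∧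
    -- (5) the answer to the question
    (1 ≤ k → ∃ P : Fin k → (IntRing Fq K)[X], Good P ∧ ¬ Recurrent P) ∧
    -- (6) for `k ≥ 2` also with polynomials each of which has a root in `O_K`
    (2 ≤ k → ∃ (P : Fin k → (IntRing Fq K)[X]) (φ : IntRing Fq K →+ Fq),
      Good P ∧ (∀ i, ∃ r, (P i).eval r = 0) ∧ Function.Surjective φ ∧ ¬ Recurrent P ∧
      ∀ T : Finset Fq, (∀ y ∈ T, y + 1 ∉ T) →
        NoConfig P {x | φ x ∈ T} ∧ HasDensity {x | φ x ∈ T} (T.card / Fintype.card Fq)) := by
  classical
  let alg : Algebra Fq (IntRing Fq K) :=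
    ((algebraMap Fq[X] (IntRing Fq K)).comp C).toAlgebra
  obtain ⟨hcount, t, ht, ht1, ht0, hI⟩ := ringOfIntegers_facts Fq K
  have hfol := exists_folner Fq (IntRing Fq K)
  have hq0 : (0 : ℝ) < Fintype.card Fq := by exact_mod_cast Fintype.card_pos
  have hdens : ∀ φ : IntRing Fq K →+ Fq, Function.Surjective φ → ∀ T : Finset Fq,
      HasDensity {x | φ x ∈ T} (T.card / Fintype.card Fq) := fun φ hφ T =>
    ⟨fun F hF => tendsto_density φ hφ T hF,
      density_eq hfol fun F hF => tendsto_density φ hφ T hF⟩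
  have h1 : ∀ c : Fin k → Fq, ∃ (P : Fin k → (IntRing Fq K)[X]) (φ : IntRing Fq K →+ Fq),
      Good P ∧ Function.Surjective φ ∧ (∀ i n, φ ((P i).eval n) = c i) ∧
      ∀ T : Finset Fq, Free c T →
        NoConfig P {x | φ x ∈ T} ∧ HasDensity {x | φ x ∈ T} (T.card / Fintype.card Fq) := by
    intro c
    obtain ⟨P, φ, hsurj, hinj, hdeg, hroot, hval⟩ := main (F := Fq) ht ht1 ht0 hI c
    exact ⟨P, φ, ⟨hinj, hdeg, hroot⟩, hsurj, hval, fun T hT => ⟨no_config hval hT,
      hdens φ hsurj T⟩⟩
  refine ⟨h1, ?_, ?_, ?_, ?_, ?_⟩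
  · intro c hcinj hc M hM
    obtain ⟨P, hinj, hdeg, hroot, ⟨φ, hsurj, hval⟩, hψ⟩ := main_mul (F := Fq) ht ht1 ht0 hI c hc
    obtain ⟨⟨T, hT, hTM⟩, hmax⟩ := hM
    refine ⟨P, ⟨hinj hcinj, hdeg, hroot⟩, ⟨{x | φ x ∈ T}, ?_, no_config hval hT⟩, ?_⟩
    · rw [← hTM]
      exact (hdens φ hsurj T).2
    · intro A hA n
      obtain ⟨ψ, hψn⟩ := hψ n
      obtain ⟨x, hx, h⟩ := exists_translate_of_hom hfol c ψ
        (fun T' hT' => hmax ⟨T', hT', rfl⟩) hA
      exact ⟨x, hx, fun i => by rw [← hψn]; exact h i⟩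
  · intro P A hA n
    exact exists_translate hfol (fun i => (P i).eval n) hA
  · intro hk
    obtain ⟨c, hc0, hcall⟩ : ∃ c : Fin k → Fq, (∀ i, c i ≠ 0) ∧ ∀ y : Fq, y ≠ 0 → ∃ i, c i = y := by
      have hcard : Fintype.card {y : Fq // y ≠ 0} = k := by
        rw [Fintype.card_subtype_compl, Fintype.card_subtype_eq]
        omega
      let e := Fintype.equivFinOfCardEq hcard
      exact ⟨fun i => (e.symm i).1, fun i => (e.symm i).2,
        fun y hy => ⟨e ⟨y, hy⟩, by simp⟩⟩
    obtain ⟨P, φ, hgood, -, -, h⟩ := h1 c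
    have hT : Free c (Finset.univ.erase (0 : Fq)) := by
      intro y hy
      obtain ⟨i, hi⟩ := hcall (-y) (neg_ne_zero.2 (Finset.ne_of_mem_erase hy))
      exact ⟨i, by rw [hi]; simp⟩
    obtain ⟨h2, -, h3⟩ := h _ hT
    refine ⟨P, hgood, _, ?_, h2⟩
    rw [h3, Finset.card_erase_of_mem (Finset.mem_univ _), Finset.card_univ, ← hk]
    push_cast
    simp
  · intro hk
    obtain ⟨P, φ, hgood, -, -, h⟩ := h1 (fun _ => 1)
    refine ⟨P, hgood, fun hrec => ?_⟩
    have hT : Free (fun _ : Fin k => (1 : Fq)) {0} := by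
      intro y hy
      refine ⟨⟨0, hk⟩, ?_⟩
      rw [Finset.mem_singleton.1 hy]
      simp
    obtain ⟨h2, -, h3⟩ := h _ hT
    apply h2
    apply hrec
    rw [h3]
    simpa using hq0
  · intro hk
    obtain ⟨P, φ, hsurj, hinj, hdeg, hroot, hval⟩ := main_root (F := Fq) ht ht1 ht0 hI hk
    have hall : ∀ T : Finset Fq, (∀ y ∈ T, y + 1 ∉ T) →
        NoConfig P {x | φ x ∈ T} ∧ HasDensity {x | φ x ∈ T} (T.card / Fintype.card Fq) := by
      intro T hT
      refine ⟨?_, hdens φ hsurj T⟩
      rintro ⟨x, n, -, h⟩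
      have h0 : φ (x + (P ⟨0, by omega⟩).eval n) ∈ T := h ⟨0, by omega⟩
      have h1' : φ (x + (P ⟨1, by omega⟩).eval n) ∈ T := h ⟨1, by omega⟩
      have h3 := hval n
      rw [map_sub] at h3
      rw [map_add] at h0 h1'
      apply hT _ h1'
      have h4 : φ x + φ ((P ⟨1, by omega⟩).eval n) + 1 =
          φ x + φ ((P ⟨0, by omega⟩).eval n) := by
        rw [← h3]
        abel
      rw [h4]
      exact h0
    refine ⟨P, φ, ⟨hinj, fun i => (hdeg i).1, hroot⟩, fun i => (hdeg i).2, hsurj,
      fun hrec => ?_, hall⟩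
    obtain ⟨h2, -, h3⟩ := hall {0} (by
      intro y hy
      rw [Finset.mem_singleton.1 hy]
      simp)
    apply h2
    apply hrec
    rw [h3]
    simpa using hq0

end Pool.Agent.Results.MP_045218_nt.ExactDensities
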